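import Pool.Agent.H211R2.MC.Rep

set_option autoImplicit false

/-!
# The bond matroid of a graph

`hd e`, `tl e` are the two (different) ends of the edge `e`.  The bond matroid is represented over
every field, its circuits are the bonds and its cocircuits are the minimal nonempty even sets.
-/

namespace N355.BM

open Set Matroid

section vm

variable {K W α : Type} [Field K] [Finite α] [AddCommGroup W] [Module K W]

/-- the matroid of a vector configuration -/
noncomputable def VM (K : Type) [Field K] [Module K W] (v : α → W) : Matroid α :=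
  (IndepMatroid.ofFinite (E := univ) (toFinite _) (fun I => LinearIndepOn K v I)
    (linearIndepOn_empty K v)
    (fun I J hJ hIJ => hJ.mono hIJ)
    (by
      intro I J hI hJ hcard
      classical
      by_contra hcon
      push Not at hcon
      have hle : v '' J ⊆ Submodule.span K (v '' I) := by
        rintro _ ⟨e, he, rfl⟩
        by_cases heI : e ∈ I
        · exact Submodule.subset_span (mem_image_of_mem _ heI)
        · by_contra h
          exact hcon e he heI ((linearIndepOn_insert heI).2 ⟨hI, h⟩)
      have : Fintype I := Fintype.ofFinite _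
      have : Fintype J := Fintype.ofFinite _
      have hfI : FiniteDimensional K (Submodule.span K (v '' I)) :=
        FiniteDimensional.span_of_finite K (toFinite _)
      have h1 : Module.finrank K (Submodule.span K (v '' J)) ≤
          Module.finrank K (Submodule.span K (v '' I)) :=
        Submodule.finrank_mono (Submodule.span_le.2 hle)
      have hr : ∀ X : Set α, v '' X = Set.range (fun x : X => v x) := by
        intro X
        ext y
        simp
      have h2 : Module.finrank K (Submodule.span K (v '' I)) = Fintype.card I := by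
        rw [hr I]
        exact finrank_span_eq_card (b := fun x : I => v x) hI
      have h3 : Module.finrank K (Submodule.span K (v '' J)) = Fintype.card J := by
        rw [hr J]
        exact finrank_span_eq_card (b := fun x : J => v x) hJ
      have h4 : I.ncard = Fintype.card I := by
        rw [← Nat.card_coe_set_eq, Nat.card_eq_fintype_card]
      have h5 : J.ncard = Fintype.card J := by
        rw [← Nat.card_coe_set_eq, Nat.card_eq_fintype_card]
      omega)
    (fun I _ => subset_univ I)).matroid

lemma VM_indep (v : α → W) (I : Set α) : (VM K v).Indep I ↔ LinearIndepOn K v I := by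
  simp [VM]

lemma VM_ground (v : α → W) : (VM K v).E = univ := rfl

end vm

variable {V E : Type} [Fintype V] [Fintype E] [DecidableEq V] [DecidableEq E]

/-- the boundary map -/
noncomputable def bd (K : Type) [Field K] (hd tl : E → V) : (E → K) →ₗ[K] (V → K) where
  toFun z v := ∑ e, z e * ((if hd e = v then 1 else 0) - (if tl e = v then 1 else 0))
  map_add' x y := by
    funext v
    simp only [Pi.add_apply, add_mul, Finset.sum_add_distrib]
  map_smul' c x := by
    funext v
    simp only [Pi.smul_apply, smul_eq_mul, RingHom.id_apply, Finset.mul_sum, mul_assoc]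

/-- the edges with exactly one end in `S` -/
def cut (hd tl : E → V) (S : Set V) : Set E :=
  {e | (hd e ∈ S ∧ tl e ∉ S) ∨ (tl e ∈ S ∧ hd e ∉ S)}

section rep

variable {K : Type} [Field K] {hd tl : E → V}

omit [DecidableEq E] in
lemma pair_bd (f : V → K) (z : E → K) :
    ∑ e, (f (hd e) - f (tl e)) * z e = ∑ v, f v * bd K hd tl z v := by
  have h : ∀ v, f v * bd K hd tl z v =
      ∑ e, z e * ((if hd e = v then f v else 0) - (if tl e = v then f v else 0)) := by
    intro v
    simp only [bd, LinearMap.coe_mk, AddHom.coe_mk, Finset.mul_sum]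
    refine Finset.sum_congr rfl fun e _ => ?_
    split_ifs <;> ring
  rw [Finset.sum_congr rfl fun v _ => h v, Finset.sum_comm]
  refine Finset.sum_congr rfl fun e _ => ?_
  rw [← Finset.mul_sum, Finset.sum_sub_distrib, Finset.sum_ite_eq, Finset.sum_ite_eq]
  simp only [Finset.mem_univ, if_true]
  ring

lemma exists_pot (c : E → K) (h : ∀ z, bd K hd tl z = 0 → ∑ e, c e * z e = 0) :
    ∃ f : V → K, ∀ e, c e = f (hd e) - f (tl e) := by
  classical
  let φ : (E → K) →ₗ[K] K :=
    { toFun := fun z => ∑ e, c e * z e
      map_add' := fun x y => by simp only [Pi.add_apply, mul_add, Finset.sum_add_distrib]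
      map_smul' := fun a x => by
        simp only [Pi.smul_apply, smul_eq_mul, RingHom.id_apply, Finset.mul_sum]
        exact Finset.sum_congr rfl fun e _ => by ring }
  have h1 : φ ∈ (LinearMap.ker (bd K hd tl)).dualAnnihilator := by
    rw [Submodule.mem_dualAnnihilator]
    intro z hz
    exact h z hz
  rw [← LinearMap.range_dualMap_eq_dualAnnihilator_ker] at h1
  obtain ⟨g, hg⟩ := h1
  refine ⟨fun v => g (Pi.single v 1), fun e => ?_⟩
  have h2 : φ (Pi.single e 1) = g (bd K hd tl (Pi.single e 1)) := by rw [← hg]; rfl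
  have h3 : φ (Pi.single e 1) = c e := by
    show ∑ e', c e' * (Pi.single e 1 : E → K) e' = c e
    rw [Finset.sum_eq_single e]
    · simp
    · intro b _ hb
      simp [hb]
    · simp
  have h4 : bd K hd tl (Pi.single e 1) = Pi.single (hd e) 1 - Pi.single (tl e) 1 := by
    funext v
    simp only [bd, LinearMap.coe_mk, AddHom.coe_mk, Pi.sub_apply]
    rw [Finset.sum_eq_single e]
    · simp only [Pi.single_eq_same, one_mul, Pi.single_apply, eq_comm]
    · intro b _ hb
      simp [hb]
    · simp
  rw [← h3, h2, h4, map_sub]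

/-- a projection onto the cycle space -/
lemma exists_proj (K : Type) [Field K] (hd tl : E → V) :
    ∃ P : (E → K) →ₗ[K] (E → K), (∀ y, bd K hd tl (P y) = 0) ∧ ∀ z, bd K hd tl z = 0 → P z = z := by
  obtain ⟨g, hg⟩ := LinearMap.exists_leftInverse_of_injective
    (LinearMap.ker (bd K hd tl)).subtype (Submodule.ker_subtype _)
  refine ⟨(LinearMap.ker (bd K hd tl)).subtype ∘ₗ g, fun y => (g y).2, fun z hz => ?_⟩
  have := congrArg (fun f => f ⟨z, hz⟩) hg
  simp only [LinearMap.comp_apply, Submodule.subtype_apply, LinearMap.id_apply] at this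
  simp [this]

/-- the projection -/
noncomputable def pr (K : Type) [Field K] (hd tl : E → V) : (E → K) →ₗ[K] (E → K) :=
  (exists_proj K hd tl).choose

lemma bd_pr (y : E → K) : bd K hd tl (pr K hd tl y) = 0 := (exists_proj K hd tl).choose_spec.1 y

lemma pr_eq {z : E → K} (hz : bd K hd tl z = 0) : pr K hd tl z = z :=
  (exists_proj K hd tl).choose_spec.2 z hz

/-- the vectors that represent the bond matroid -/
noncomputable def vec (K : Type) [Field K] (hd tl : E → V) (e : E) : E → K :=
  fun j => pr K hd tl (Pi.single j 1) e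

lemma sum_vec (y : E → K) (e : E) : ∑ j, y j * vec K hd tl e j = pr K hd tl y e := by
  have h : y = ∑ j, y j • (Pi.single j (1 : K) : E → K) := by
    funext i
    rw [Finset.sum_apply, Finset.sum_eq_single i]
    · simp
    · intro b _ hb
      simp [Ne.symm hb]
    · simp
  conv_rhs => rw [h]
  rw [map_sum, Finset.sum_apply]
  refine Finset.sum_congr rfl fun j _ => ?_
  rw [map_smul]
  rfl

lemma comb_zero_iff (c : E → K) :
    ∑ e, c e • vec K hd tl e = 0 ↔ ∀ z, bd K hd tl z = 0 → ∑ e, c e * z e = 0 := by
  constructor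
  · intro h z hz
    have h1 : ∀ j, ∑ e, c e * vec K hd tl e j = 0 := by
      intro j
      have := congrFun h j
      rw [Finset.sum_apply] at this
      exact this
    have h2 : ∑ e, c e * z e = ∑ e, c e * ∑ j, z j * vec K hd tl e j := by
      refine Finset.sum_congr rfl fun e _ => ?_
      rw [sum_vec, pr_eq hz]
    rw [h2]
    simp only [Finset.mul_sum]
    rw [Finset.sum_comm]
    refine Finset.sum_eq_zero fun j _ => ?_
    have h3 : ∑ e, c e * (z j * vec K hd tl e j) = z j * ∑ e, c e * vec K hd tl e j := by
      rw [Finset.mul_sum]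
      exact Finset.sum_congr rfl fun e _ => by ring
    rw [h3, h1 j, mul_zero]
  · intro h
    funext j
    rw [Finset.sum_apply]
    exact h _ (bd_pr (Pi.single j 1))

lemma linearIndepOn_iff_supp {α W : Type} [Fintype α] [AddCommGroup W] [Module K W] (v : α → W)
    (I : Set α) : LinearIndepOn K v I ↔
      ∀ c : α → K, (∀ e, e ∉ I → c e = 0) → ∑ e, c e • v e = 0 → ∀ e, c e = 0 := by
  classical
  haveI : Fintype I := Fintype.ofFinite _
  unfold LinearIndepOn
  rw [Fintype.linearIndependent_iff]
  have key : ∀ c : α → K, (∀ e, e ∉ I → c e = 0) → ∑ e : I, c e.1 • v e.1 = ∑ e, c e • v e := by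
    intro c hc
    apply Fintype.sum_of_injective (fun e : I => e.1) Subtype.val_injective
    · intro e he
      rw [hc e, zero_smul]
      intro h
      exact he ⟨⟨e, h⟩, rfl⟩
    · intro e; rfl
  constructor
  · intro h c hc hs e
    by_cases he : e ∈ I
    · exact h (fun e => c e.1) (by rw [key c hc, hs]) ⟨e, he⟩
    · exact hc e he
  · intro h g hg e
    have h1 := h (fun e => if he : e ∈ I then g ⟨e, he⟩ else 0) (fun e he => by simp [he]) (by
      rw [← key _ (fun e he => by simp [he]), ← hg]
      exact Finset.sum_congr rfl fun e _ => by simp) e.1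
    simpa using h1

/-- independence does not depend on the field -/
theorem indep_iff (I : Set E) : LinearIndepOn K (vec K hd tl) I ↔
    ∀ S : Set V, cut hd tl S ⊆ I → cut hd tl S = ∅ := by
  classical
  rw [linearIndepOn_iff_supp]
  constructor
  · intro h S hS
    by_contra hne
    obtain ⟨e0, he0⟩ := nonempty_iff_ne_empty.2 hne
    let f : V → K := fun v => if v ∈ S then 1 else 0
    have h1 := h (fun e => f (hd e) - f (tl e)) (by
      intro e he
      have : e ∉ cut hd tl S := fun h => he (hS h)
      simp only [cut, mem_ofPred_eq, not_or, not_and, not_not] at this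
      simp only [f]
      by_cases h1 : hd e ∈ S
      · simp [h1, this.1 h1]
      · have h2 : tl e ∉ S := fun h2 => h1 (this.2 h2)
        simp [h1, h2]) (by
      rw [comb_zero_iff]
      intro z hz
      rw [pair_bd, hz]
      simp) e0
    simp only [f] at h1
    rcases he0 with ⟨h2, h3⟩ | ⟨h2, h3⟩
    · simp [h2, h3] at h1
    · simp [h2, h3] at h1
  · intro h c hc hs
    rw [comb_zero_iff] at hs
    obtain ⟨f, hf⟩ := exists_pot c hs
    intro e0
    by_contra hne
    have h1 : cut hd tl {v | f v = f (hd e0)} ⊆ I := by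
      intro e he
      by_contra heI
      have h2 := hc e heI
      rw [hf e, sub_eq_zero] at h2
      rcases he with ⟨h3, h4⟩ | ⟨h3, h4⟩
      · exact h4 (by simpa [← h2] using h3)
      · exact h4 (by simpa [h2] using h3)
    have h2 : e0 ∈ cut hd tl {v | f v = f (hd e0)} := by
      left
      refine ⟨rfl, fun h3 => hne ?_⟩
      rw [hf e0]
      have h4 : f (tl e0) = f (hd e0) := h3
      rw [h4, sub_self]
    rw [h _ h1] at h2
    exact h2

end rep

/-- the bond matroid -/
noncomputable def BM (hd tl : E → V) : Matroid E := VM (ZMod 2) (vec (ZMod 2) hd tl)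

variable {hd tl : E → V}

lemma BM_ground : (BM hd tl).E = univ := rfl

lemma BM_indep (I : Set E) : (BM hd tl).Indep I ↔ ∀ S : Set V, cut hd tl S ⊆ I → cut hd tl S = ∅ := by
  rw [BM, VM_indep, indep_iff]

lemma BM_dep (I : Set E) : (BM hd tl).Dep I ↔ ∃ S : Set V, cut hd tl S ⊆ I ∧ (cut hd tl S).Nonempty := by
  rw [Matroid.dep_iff, BM_indep, BM_ground]
  constructor
  · rintro ⟨h, _⟩
    push Not at h
    obtain ⟨S, h1, h2⟩ := h
    exact ⟨S, h1, h2⟩
  · rintro ⟨S, h1, h2⟩
    exact ⟨fun h => nonempty_iff_ne_empty.1 h2 (h S h1), subset_univ _⟩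

/-- the circuits are the minimal nonempty cuts -/
theorem BM_circuit (C : Set E) : (BM hd tl).IsCircuit C ↔
    (∃ S, cut hd tl S = C) ∧ C.Nonempty ∧
      ∀ S : Set V, (cut hd tl S).Nonempty → cut hd tl S ⊆ C → cut hd tl S = C := by
  rw [Matroid.isCircuit_iff_forall_ssubset]
  constructor
  · rintro ⟨h1, h2⟩
    obtain ⟨S, hS, hne⟩ := (BM_dep C).1 h1
    have key : ∀ S : Set V, (cut hd tl S).Nonempty → cut hd tl S ⊆ C → cut hd tl S = C := by
      intro S hne hS
      by_contra hcon
      have h3 := h2 (ssubset_iff_subset_ne.2 ⟨hS, hcon⟩)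
      rw [BM_indep] at h3
      exact nonempty_iff_ne_empty.1 hne (h3 S (subset_refl _))
    refine ⟨⟨S, key S hne hS⟩, ?_, key⟩
    rw [← key S hne hS]; exact hne
  · rintro ⟨⟨S, hS⟩, hne, hmin⟩
    refine ⟨(BM_dep C).2 ⟨S, hS.le, by rw [hS]; exact hne⟩, fun I hI => ?_⟩
    rw [BM_indep]
    intro T hT
    by_contra hcon
    have h3 := hmin T (nonempty_iff_ne_empty.2 hcon) (hT.trans hI.1)
    exact hI.2 (h3 ▸ hT)

theorem BM_rep (K : Type) [Field K] {n : ℕ} (hd tl : Fin n → V) :
    H211.MC.Representable K (BM hd tl) := by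
  refine ⟨n, vec K hd tl, fun I _ => ?_⟩
  rw [BM_indep, indep_iff]

/-- spanning sets -/
theorem BM_spanning (X : Set E) : (BM hd tl).Spanning X ↔
    ∀ z : E → ZMod 2, bd (ZMod 2) hd tl z = 0 → (∀ e ∈ X, z e = 0) → z = 0 := by
  classical
  have hv : ∀ I : Set E, (BM hd tl).Indep I ↔ LinearIndepOn (ZMod 2) (vec (ZMod 2) hd tl) I := by
    intro I; rw [BM, VM_indep]
  constructor
  · intro h z hz hX
    rw [spanning_iff_exists_isBase_subset] at h
    obtain ⟨B, hB, hBX⟩ := h
    let φ : (E → ZMod 2) →ₗ[ZMod 2] ZMod 2 :=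
      { toFun := fun y => ∑ j, z j * y j
        map_add' := fun x y => by simp only [Pi.add_apply, mul_add, Finset.sum_add_distrib]
        map_smul' := fun a x => by
          simp only [Pi.smul_apply, smul_eq_mul, RingHom.id_apply, Finset.mul_sum]
          exact Finset.sum_congr rfl fun e _ => by ring }
    have hφ : ∀ e, φ (vec (ZMod 2) hd tl e) = z e := by
      intro e
      show ∑ j, z j * vec (ZMod 2) hd tl e j = z e
      rw [sum_vec, pr_eq hz]
    have hsp : Submodule.span (ZMod 2) (vec (ZMod 2) hd tl '' B) ≤ LinearMap.ker φ := by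
      rw [Submodule.span_le]
      rintro _ ⟨e, he, rfl⟩
      show φ _ = 0
      rw [hφ]
      exact hX e (hBX he)
    funext e
    by_cases he : e ∈ B
    · exact hX e (hBX he)
    · have h1 : ¬ (BM hd tl).Indep (insert e B) := by
        intro hI
        have := hB.eq_of_subset_indep hI (subset_insert _ _)
        exact he (this ▸ mem_insert _ _)
      have h2 : vec (ZMod 2) hd tl e ∈ Submodule.span (ZMod 2) (vec (ZMod 2) hd tl '' B) := by
        by_contra hcon
        exact h1 ((hv _).2 ((linearIndepOn_insert he).2 ⟨(hv _).1 hB.indep, hcon⟩))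
      have h3 := hsp h2
      have h4 : φ (vec (ZMod 2) hd tl e) = 0 := h3
      rw [hφ] at h4
      exact h4
  · intro h
    rw [spanning_iff_exists_isBase_subset (by rw [BM_ground]; exact subset_univ _)]
    obtain ⟨I, hI⟩ := (BM hd tl).exists_isBasis X (by rw [BM_ground]; exact subset_univ _)
    refine ⟨I, ?_, hI.subset⟩
    by_contra hnb
    obtain ⟨B, hB⟩ := (BM hd tl).exists_isBase
    obtain ⟨e, he, heI⟩ := hI.indep.exists_insert_of_not_isBase hnb hB
    have h1 := (linearIndepOn_insert he.2).1 ((hv _).1 heI)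
    obtain ⟨φ, hφe, hφ⟩ := Submodule.exists_le_ker_of_notMem h1.2
    have h2 : ∀ e', pr (ZMod 2) hd tl (fun j => φ (Pi.single j 1)) e' =
        φ (vec (ZMod 2) hd tl e') := by
      intro e'
      rw [← sum_vec]
      have h3 : vec (ZMod 2) hd tl e' = ∑ j, vec (ZMod 2) hd tl e' j •
          (Pi.single j (1 : ZMod 2) : E → ZMod 2) := by
        funext i
        rw [Finset.sum_apply, Finset.sum_eq_single i]
        · simp
        · intro b _ hb
          simp [Ne.symm hb]
        · simp
      conv_rhs => rw [h3]
      rw [map_sum]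
      refine Finset.sum_congr rfl fun j _ => ?_
      rw [map_smul, smul_eq_mul, mul_comm]
    have h4 := h (pr (ZMod 2) hd tl (fun j => φ (Pi.single j 1))) (bd_pr _) (by
      intro x hx
      rw [h2]
      by_cases hxI : x ∈ I
      · exact hφ (Submodule.subset_span (mem_image_of_mem _ hxI))
      · have h5 : vec (ZMod 2) hd tl x ∈ Submodule.span (ZMod 2) (vec (ZMod 2) hd tl '' I) := by
          by_contra hcon
          have h6 := (hv _).2 ((linearIndepOn_insert hxI).2 ⟨(hv _).1 hI.indep, hcon⟩)
          have h7 := hI.eq_of_subset_indep h6 (subset_insert _ _) (insert_subset hx hI.subset)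
          exact hxI (h7 ▸ mem_insert _ _)
        exact hφ h5)
    apply hφe
    rw [← h2, h4]
    rfl

/-- the cocircuits are the minimal supports of nonzero cycles -/
theorem BM_cocircuit (D : Set E) (h : (BM hd tl).IsCocircuit D) :
    (∃ z : E → ZMod 2, bd (ZMod 2) hd tl z = 0 ∧ z ≠ 0 ∧ ∀ e, z e ≠ 0 ↔ e ∈ D) ∧
      ∀ z : E → ZMod 2, bd (ZMod 2) hd tl z = 0 → z ≠ 0 → (∀ e, z e ≠ 0 → e ∈ D) →
        ∀ e ∈ D, z e ≠ 0 := by
  classical
  rw [isCocircuit_iff_minimal_compl_nonspanning, minimal_subset_iff] at h
  obtain ⟨h1, h2⟩ := h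
  have key : ∀ z : E → ZMod 2, bd (ZMod 2) hd tl z = 0 → z ≠ 0 → (∀ e, z e ≠ 0 → e ∈ D) →
        ∀ e ∈ D, z e ≠ 0 := by
    intro z hz hz0 hzD e he
    have h3 := h2 (t := {e | z e ≠ 0}) (by
      rw [BM_spanning]
      intro h
      apply hz0
      apply h z hz
      intro e he
      by_contra hne
      exact he.2 hne) (fun e he => hzD e he)
    rw [h3] at he
    exact he
  rw [BM_spanning] at h1
  push Not at h1
  obtain ⟨z, hz, hz1, hz0⟩ := h1
  have hzD : ∀ e, z e ≠ 0 → e ∈ D := by
    intro e he
    by_contra hne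
    exact he (hz1 e ⟨mem_univ _, hne⟩)
  exact ⟨⟨z, hz, hz0, fun e => ⟨hzD e, key z hz hz0 hzD e⟩⟩, key⟩

end N355.BM
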