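import Pool.Agent.N355.BM.Bond

set_option autoImplicit false

/-!
# Double covers of a graph by as many cycles as its largest bond
-/

namespace N355.BM

open Set Matroid

/-- Connected finite matroids that are representable over `GF(2)` and over a field of
characteristic different from two: a list of `c` cocircuits (`c` the largest size of a circuit)
covers every element twice. -/
theorem cover_regular {α : Type} (M : Matroid α) (hfin : M.Finite) (h2 : 2 ≤ M.E.ncard)
    (hconn : ∀ e ∈ M.E, ∀ f ∈ M.E, ∃ C : Set α, M.IsCircuit C ∧ e ∈ C ∧ f ∈ C)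
    (hb : H211.MC.Representable (ZMod 2) M) (hK : H211.MC.Representable ℚ M) (c : ℕ)
    (hc : ∀ C : Set α, M.IsCircuit C → C.ncard ≤ c) :
    ∃ D : Fin c → Set α, (∀ i, M.IsCocircuit (D i)) ∧
      ∀ e ∈ M.E, 2 ≤ {i : Fin c | e ∈ D i}.ncard := by
  have hfinE : M.E.Finite := hfin.ground_finite
  have hG : H211.MC.Good M :=
    { fin := hfin
      ne := by
        rw [nonempty_iff_ne_empty]
        intro h
        rw [h] at h2
        simp at h2
      ll := by
        intro e he
        obtain ⟨f, hf, hfe⟩ := exists_ne_of_one_lt_ncard (s := M.E) (by omega) e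
        obtain ⟨C, hC, heC, hfC⟩ := hconn e he f hf
        have hI : M.Indep {e} := by
          apply (hC.sdiff_singleton_indep hfC).subset
          intro z hz
          rw [mem_singleton_iff.1 hz]
          exact ⟨heC, fun h => hfe h.symm⟩
        rw [H211.MC.rk_indep M hI, ncard_singleton]
      conn := H211.MC.Pair.conn hconn }
  have hN : H211.MC.NoSeven M := by
    intro X hX hs
    obtain ⟨W, _, _, u, hu⟩ := H211.MC.rep_contract hb hX
    have hF := H211.MC.seven_fano hu hs
    obtain ⟨W', _, _, u', hu'⟩ := H211.MC.rep_contract hK hX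
    exact H211.MC.no_fano (by norm_num : (2 : ℚ) ≠ 0) hu' hF
  have hc2 : ∀ e ∈ M.E, 2 ≤ c := by
    intro e he
    obtain ⟨f, hf, hfe⟩ := exists_ne_of_one_lt_ncard (s := M.E) (by omega) e
    obtain ⟨C, hC, heC, hfC⟩ := hconn e he f hf
    have h1 := hc C hC
    have h3 : 1 < C.ncard := by
      rw [one_lt_ncard (hfinE.subset hC.subset_ground)]
      exact ⟨e, heC, f, hfC, fun h => hfe h.symm⟩
    omega
  obtain ⟨D, hD, hcov⟩ := H211.MC.cover _ M hG hN (fun _ => 2) c rfl hc2 (by
    intro C hC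
    have hCf : C.Finite := hfinE.subset hC.subset_ground
    show ∑ᶠ e ∈ C, 2 ≤ 2 * c
    rw [finsum_mem_eq_finite_toFinset_sum _ hCf, Finset.sum_const, smul_eq_mul,
      ← ncard_eq_toFinset_card C hCf, mul_comm]
    exact Nat.mul_le_mul_left 2 (hc C hC))
  exact ⟨D, hD, hcov⟩

variable {V E : Type} [Fintype V] [Fintype E] [DecidableEq V] [DecidableEq E] {hd tl : E → V}

lemma cut_compl (S : Set V) : cut hd tl Sᶜ = cut hd tl S := by
  ext e
  simp only [cut, mem_ofPred_eq, mem_compl_iff, not_not]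
  tauto

/-- In a graph without cut vertices the stars are bonds. -/
theorem star_circuit (v : V) (hne : (cut hd tl {v}).Nonempty)
    (hv : ∀ S : Set V, v ∉ S → S.Nonempty → (∀ e, hd e ≠ v → tl e ≠ v → (hd e ∈ S ↔ tl e ∈ S)) →
      S = {v}ᶜ) : (BM hd tl).IsCircuit (cut hd tl {v}) := by
  rw [BM_circuit]
  refine ⟨⟨_, rfl⟩, hne, ?_⟩
  have key : ∀ S : Set V, v ∉ S → (cut hd tl S).Nonempty → cut hd tl S ⊆ cut hd tl {v} →
      cut hd tl S = cut hd tl {v} := by
    intro S hvS hS hle
    have h1 : S.Nonempty := by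
      obtain ⟨e, he⟩ := hS
      rcases he with h | h
      · exact ⟨_, h.1⟩
      · exact ⟨_, h.1⟩
    have h2 := hv S hvS h1 (by
      intro e he1 he2
      have h3 : e ∉ cut hd tl {v} := by
        rintro (h | h)
        · exact he1 h.1
        · exact he2 h.1
      have h4 : e ∉ cut hd tl S := fun h => h3 (hle h)
      simp only [cut, mem_ofPred_eq, not_or, not_and, not_not] at h4
      exact ⟨h4.1, h4.2⟩)
    rw [h2, cut_compl]
  intro S hS hle
  by_cases hvS : v ∈ S
  · have := key Sᶜ (fun h => h hvS) (by rw [cut_compl]; exact hS) (by rw [cut_compl]; exact hle)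
    rwa [cut_compl] at this
  · exact key S hvS hS hle

/-- if the stars are circuits and the graph is connected then any two edges are in a common
circuit -/
theorem pair_of_stars (hstar : ∀ v, (BM hd tl).IsCircuit (cut hd tl {v}))
    (hne : ∀ e, hd e ≠ tl e)
    (hconn : ∀ S : Set V, S.Nonempty → (∀ e, hd e ∈ S ↔ tl e ∈ S) → S = univ) (e f : E) :
    ∃ C : Set E, (BM hd tl).IsCircuit C ∧ e ∈ C ∧ f ∈ C := by
  have : (BM hd tl).Finite := ⟨toFinite _⟩
  have hmem : ∀ (e : E) (v : V), e ∈ cut hd tl {v} ↔ hd e = v ∨ tl e = v := by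
    intro e v
    simp only [cut, mem_ofPred_eq, mem_singleton_iff]
    constructor
    · rintro (h | h)
      · exact Or.inl h.1
      · exact Or.inr h.1
    · rintro (h | h)
      · exact Or.inl ⟨h, fun h' => hne e (h.trans h'.symm)⟩
      · exact Or.inr ⟨h, fun h' => hne e (h'.trans h.symm)⟩
  have htr : ∀ a b c : E, (∃ C : Set E, (BM hd tl).IsCircuit C ∧ a ∈ C ∧ b ∈ C) →
      (∃ C : Set E, (BM hd tl).IsCircuit C ∧ b ∈ C ∧ c ∈ C) →
      ∃ C : Set E, (BM hd tl).IsCircuit C ∧ a ∈ C ∧ c ∈ C := by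
    rintro a b c ⟨C1, h1, ha, hb⟩ ⟨C2, h2, hb', hc⟩
    exact H211.MC.circuit_trans h1 h2 ha hc ⟨b, hb, hb'⟩
  -- the set of vertices all of whose edges are related to `e`
  have h1 := hconn {v | ∀ g, g ∈ cut hd tl {v} → ∃ C : Set E, (BM hd tl).IsCircuit C ∧ e ∈ C ∧ g ∈ C}
    ⟨hd e, fun g hg => ⟨_, hstar (hd e), (hmem _ _).2 (Or.inl rfl), hg⟩⟩ (by
      intro g
      constructor
      · intro h k hk
        exact htr e g k (h g ((hmem _ _).2 (Or.inl rfl)))
          ⟨_, hstar (tl g), (hmem _ _).2 (Or.inr rfl), hk⟩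
      · intro h k hk
        exact htr e g k (h g ((hmem _ _).2 (Or.inr rfl)))
          ⟨_, hstar (hd g), (hmem _ _).2 (Or.inl rfl), hk⟩)
  have h2 : hd f ∈ (univ : Set V) := mem_univ _
  rw [← h1] at h2
  exact h2 f ((hmem _ _).2 (Or.inl rfl))

/-- the mod 2 boundary of a set of edges -/
theorem bd_two (hne : ∀ e, hd e ≠ tl e) (z : E → ZMod 2) (v : V) :
    bd (ZMod 2) hd tl z v =
      ((Finset.univ.filter fun e => z e ≠ 0 ∧ (hd e = v ∨ tl e = v)).card : ZMod 2) := by
  have hz : ∀ x : ZMod 2, x ≠ 0 → x = 1 := by decide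
  simp only [bd, LinearMap.coe_mk, AddHom.coe_mk]
  rw [Finset.card_filter, Nat.cast_sum]
  refine Finset.sum_congr rfl fun e _ => ?_
  by_cases h0 : z e = 0
  · simp [h0]
  · rw [hz _ h0]
    by_cases h1 : hd e = v
    · have h2 : tl e ≠ v := fun h => hne e (h1.trans h.symm)
      simp [h1, h2]
    · by_cases h2 : tl e = v
      · simp [h1, h2]
      · simp [h1, h2]

end N355.BM
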